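import Pool.Agent.W292.RG.Stm

/-!
# RG-M1: no class contains more than half of `W`
-/

set_option autoImplicit false

namespace Pool.Agent.W565.RG

open Finset H331HC Pool.Agent.Helper879.ECD Pool.Agent.W292.RG

theorem M1 (h0 : St_M0) : St_M1 := by
  intro V ι _ _ _ G c X W hdis hc hX hhalf k hk
  have hWe : Even W.card := by
    rw [Nat.even_iff]
    omega
  obtain ⟨f, hf1, hf2, hf3, -⟩ := perfect_pairing (⊥ : SimpleGraph V) (fun x y => c x ≠ c y)
    (fun x y h => fun h' => h h'.symm) (fun x y _ h => h) (fun x h => h rfl) W hWe 0 0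
    (fun x => by simp) (fun x y _ => by simp) (fun x hx => by
      have h1 := hhalf x hx
      have h2 : (W.filter (fun y => ¬ (c x ≠ c y))) = W.filter (fun y => c y = c x) := by
        ext y
        rw [mem_filter, mem_filter, not_not, eq_comm]
      rw [h2]
      omega)
  have hfW : ∀ x ∈ W, f x ∈ W := by
    intro x hx
    by_contra h
    have h1 := hf2 (f x) h
    rw [hf1] at h1
    exact hf3 x hx (congrArg c h1)
  have hcc : ∀ x ∈ X ∪ W, ∀ y ∈ X ∪ W, Gᶜ.Adj x y → c x = c y := by
    intro x hx y hy h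
    rw [SimpleGraph.compl_adj] at h
    exact hc x hx y hy h.1 h.2
  refine h0 V G X W f hdis hfW (fun x _ => hf1 x) ?_ ?_ ?_ ?_ k hk
  · intro x hx
    by_contra h
    have hne : x ≠ f x := fun h' => hf3 x hx (congrArg c h')
    exact hf3 x hx (hc x (mem_union_right _ hx) (f x) (mem_union_right _ (hfW x hx)) hne h)
  · intro s hs t ht hst
    by_contra h
    exact hst (hX s hs t ht (hc s (mem_union_left _ hs) t (mem_union_left _ ht) hst h))
  · rintro x hx s hs ⟨h1, h2⟩
    have h3 := hcc x (mem_union_right _ hx) s (mem_union_left _ hs) h1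
    have h4 := hcc (f x) (mem_union_right _ (hfW x hx)) s (mem_union_left _ hs) h2
    exact hf3 x hx (h3.trans h4.symm)
  · rintro x hx y hy ⟨h1, h2, -, -⟩
    have h3 := hcc x (mem_union_right _ hx) y (mem_union_right _ hy) h1
    have h4 := hcc x (mem_union_right _ hx) (f y) (mem_union_right _ (hfW y hy)) h2
    exact hf3 y hy (h3.symm.trans h4)

end Pool.Agent.W565.RG
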